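import Pool.Agent.AC73.Main
import Pool.Agent.MB73.Balls

set_option autoImplicit false

open Pointwise

namespace Pool.Agent.Results.MP_b59cbc_al.AbelianByCyclic

open Pool.Agent.AC73 Pool.Agent.MB73

/-- Let `G` be a group with an abelian normal subgroup `A` such that `G/A` is virtually cyclic
(`A ⊔ ⟨t⟩` has finite index in `G`), and `S` a finite generating set of `G` with respect to which
`G` has exponential growth: the balls `B(n) = (S ∪ S⁻¹ ∪ {1})^n` have at least `c ^ n` elements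
for some `c > 1`. Then `2 |B(n)| ≤ |B(n + L)|` for a constant `L` and all `n`, and there is `ε > 0`
such that `|B(n+1)| - |B(n)| ≥ ε |B(n)|` for all `n`. -/
theorem result (G : Type) [Group G] [DecidableEq G] (A : Subgroup G) (hA : A.Normal)
    (hAc : ∀ a ∈ A, ∀ b ∈ A, a * b = b * a) (t : G)
    (hfi : (A ⊔ Subgroup.zpowers t).FiniteIndex)
    (S : Finset G) (hS : Subgroup.closure (S : Set G) = ⊤) (c : ℝ) (hc : 1 < c)
    (hexp : ∀ n : ℕ, c ^ n ≤ (((S ∪ S⁻¹ ∪ {1}) ^ n).card : ℝ)) :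
    (∃ L : ℕ, ∀ n : ℕ,
      2 * ((S ∪ S⁻¹ ∪ {1}) ^ n).card ≤ ((S ∪ S⁻¹ ∪ {1}) ^ (n + L)).card) ∧
    ∃ ε : ℝ, 0 < ε ∧ ∀ n : ℕ,
      ε * (((S ∪ S⁻¹ ∪ {1}) ^ n).card : ℝ) ≤
        (((S ∪ S⁻¹ ∪ {1}) ^ (n + 1)).card : ℝ) - (((S ∪ S⁻¹ ∪ {1}) ^ n).card : ℝ) := by
  classical
  set T : Finset G := S ∪ S⁻¹ ∪ {1} with hT
  have h1 : (1 : G) ∈ T := by simp [hT]
  have hgen : ∀ g : G, ∃ n : ℕ, g ∈ T ^ n := exists_mem_pow S hS
  let instA : CommGroup A :=
    { (inferInstance : Group A) with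
      mul_comm := fun a b => Subtype.ext (hAc a.1 a.2 b.1 b.2) }
  let ι : A →* G := A.subtype
  have hι : Function.Injective ι := A.subtype_injective
  have hrange : ι.range = A := A.range_subtype
  have hdoub : ∃ L : ℕ, ∀ n : ℕ, 2 * (T ^ n).card ≤ (T ^ (n + L)).card := by
    by_cases ht : ∀ i : ℤ, t ^ i ∈ ι.range → i = 0
    · obtain ⟨D, -, -⟩ := exists_dec ι hι (fun g k => ⟨⟨g * k.1 * g⁻¹, hA.conj_mem k.1 k.2 g⟩, rfl⟩)
        t ht (by rw [hrange]; exact hfi)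
      have hV : Nonempty (Nu D.φ) ∨ Nonempty (Nu D.φ⁻¹) := by
        by_cases hK : Group.FG A
        · exact exists_nu_fg D T h1 hgen c hc hexp
        · exact exists_nu_not_fg D hK T h1 hgen
      rcases hV with ⟨⟨V⟩⟩ | ⟨⟨V⟩⟩
      · exact main_dec D V T h1 hgen
      · exact main_dec D.flip V T h1 hgen
    · exfalso
      push Not at ht
      obtain ⟨i, hi, hi0⟩ := ht
      rw [hrange] at hi
      refine virt_abelian ι ?_ (by rw [hrange]; exact hA) T c hc hexp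
      rw [hrange]
      exact finite_index_aux A hA t i hi0 hi hfi
  obtain ⟨L, hL⟩ := hdoub
  exact ⟨⟨L, hL⟩, ratio_of_doubling T h1 L hL⟩

end Pool.Agent.Results.MP_b59cbc_al.AbelianByCyclic
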