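import Pool.Agent.HS73.PL3
import Pool.Agent.HS73.K0
import Pool.Agent.MB73.Balls

set_option autoImplicit false

open Pointwise

namespace Pool.Agent.Results.MP_b59cbc_al.HalfSpaceCriterion

open Pool.Agent.HS73 Pool.Agent.MB73

/-- The size of the ball `B(n) = (S ∪ S⁻¹ ∪ {1})^n`. -/
def ball {G : Type} [Group G] [DecidableEq G] (S : Finset G) (n : ℕ) : ℕ :=
  ((S ∪ S⁻¹ ∪ {1}) ^ n).card

/-- For every finite generating set `S` of `G`, the ball sizes satisfy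
`2 |B(n)| ≤ |B(n + C)|` for a constant `C` and all `n`, and `|B(n+1)| - |B(n)| ≥ ε |B(n)|` for some
`ε > 0` and all `n`. -/
def BallsGrow (G : Type) [Group G] [DecidableEq G] : Prop :=
  ∀ S : Finset G, Subgroup.closure (S : Set G) = ⊤ →
    (∃ C : ℕ, ∀ n : ℕ, 2 * ball S n ≤ ball S (n + C)) ∧
    ∃ ε : ℝ, 0 < ε ∧ ∀ n : ℕ, ε * (ball S n : ℝ) ≤ (ball S (n + 1) : ℝ) - (ball S n : ℝ)

/-- (1) `H` carries a homomorphism `τ : H → ℝ` and a function `m : H → ℝ` with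
`m (a b) ≤ max (m a) (τ a + m b)`, `m a⁻¹ = m a - τ a`, `m 1 = 0` (as given by an action on an
`ℝ`-tree fixing an end), there is `t` with `m t ≤ τ t` and `0 < τ t`, and there is `v` with
`τ v = 0 < m v` such that the set of all `k v k⁻¹` with `τ k = 0`, `m k ≤ 0`, `m (v⁻¹ k v) ≤ 0` is
finite. -/
def TreeCond (H : Type) [Group H] : Prop :=
  ∃ (τ m : H → ℝ) (t v : H),
    (∀ a b, τ (a * b) = τ a + τ b) ∧
    (∀ a b, m (a * b) ≤ max (m a) (τ a + m b)) ∧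
    (∀ a, m a⁻¹ = m a - τ a) ∧ m 1 = 0 ∧
    0 < τ t ∧ m t ≤ τ t ∧ τ v = 0 ∧ 0 < m v ∧
    {y | ∃ k, τ k = 0 ∧ m k ≤ 0 ∧ m (v⁻¹ * k * v) ≤ 0 ∧ y = k * v * k⁻¹}.Finite

/-- (2) `H` carries a homomorphism `τ : H → ℤ` and contains `t` with `τ t = 1`, a subgroup `K` with
`t⁻¹ K t ⊆ K` such that every element of the kernel of `τ` lies in some `t ^ n K t ^ (-n)`, and
`v ∉ K` with `τ v = 0` such that the set of all `k v k⁻¹` with `k` and `v⁻¹ k v` in `K` is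
finite. -/
def FiltrationCond (H : Type) [Group H] : Prop :=
  ∃ (τ : H → ℤ) (K : Subgroup H) (t v : H),
    (∀ a b, τ (a * b) = τ a + τ b) ∧
    (∀ k ∈ K, t⁻¹ * k * t ∈ K) ∧ τ t = 1 ∧
    (∀ h, τ h = 0 → ∃ n : ℕ, t ^ (-(n : ℤ)) * h * t ^ (n : ℤ) ∈ K) ∧
    τ v = 0 ∧ v ∉ K ∧
    {y | ∃ k ∈ K, v⁻¹ * k * v ∈ K ∧ y = k * v * k⁻¹}.Finite

/-- (3) `H` acts by piecewise linear homeomorphisms of `[0,1]`, and a non-abelian normal subgroup
`L` of `H` acts faithfully. -/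
def PLCond (H : Type) [Group H] : Prop :=
  ∃ (ρ : H →* (ℝ ≃o ℝ)) (L : Subgroup H),
    (∀ h, IsPL (ρ h)) ∧ L.Normal ∧ (∀ l ∈ L, ρ l = 1 → l = 1) ∧
    ∃ a ∈ L, ∃ b ∈ L, a * b ≠ b * a

lemma ballsGrow_of {G : Type} [Group G] [DecidableEq G]
    (h : ∀ T : Finset G, (1 : G) ∈ T → (∀ g : G, ∃ n : ℕ, g ∈ T ^ n) →
      ∃ C : ℕ, ∀ n : ℕ, 2 * (T ^ n).card ≤ (T ^ (n + C)).card) : BallsGrow G := by
  intro S hS
  have h1 : (1 : G) ∈ (S ∪ S⁻¹ ∪ {1} : Finset G) := by simp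
  obtain ⟨C, hC⟩ := h _ h1 (exists_mem_pow S hS)
  exact ⟨⟨C, hC⟩, ratio_of_doubling _ h1 C hC⟩

/-- If a subgroup `H` of finite index in `G` satisfies one of the three conditions, then the balls
of `G`, for any finite generating set, grow by a definite factor. -/
theorem result (G : Type) [Group G] [DecidableEq G] (H : Subgroup G) (hfi : H.FiniteIndex)
    (hH : TreeCond H ∨ FiltrationCond H ∨ PLCond H) : BallsGrow G := by
  rcases hH with ⟨τ, m, t, v, hτ, hm, hinv, h1, ht0, ht, hv, hv0, hfin⟩ |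
    ⟨τ, K, t, v, hτ, hsh, ht, hun, hv, hvK, hfin⟩ | ⟨ρ, L, hPL, hL, hinj, hnc⟩
  · refine ballsGrow_of (fun T h1T hgen => ?_)
    exact doubling (⟨τ, m, hτ, hm, hinv, h1⟩ : Conf H) hfi t ht0 ht v hv hv0 hfin.toFinset
      (fun k hk hkm hkv => by
        rw [Set.Finite.mem_toFinset]
        exact ⟨k, hk, hkm, hkv, rfl⟩) T h1T hgen
  · exact ballsGrow_of (fun T h1T hgen =>
      k0_doubling H hfi τ K t v hτ hsh ht hun hv hvK hfin T h1T hgen)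
  · exact ballsGrow_of (fun T h1T hgen => pl_doubling H hfi ρ hPL L hL hinj hnc T h1T hgen)

end Pool.Agent.Results.MP_b59cbc_al.HalfSpaceCriterion
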