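import Pool.Agent.MB73.Main
import Pool.Agent.MB73.Balls

set_option autoImplicit false

open Pointwise

namespace Pool.Agent.Results.MP_b59cbc_al.MetabelianInfiniteRank

open Pool.Agent.MB73

/-- Let `G` be a finitely generated group, `C` a normal subgroup such that `G/C` is virtually
abelian (`H` is a subgroup of finite index of `G` and `⁅H, H⁆ ≤ C`), and `A ≤ C` a normal subgroup
of `G` that meets the commutator subgroup of `C` trivially (so `A` is abelian) and contains a free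
abelian group of rank `n` for every `n`. Then for every finite generating set `S` of `G` the balls
`B(n) = (S ∪ S⁻¹ ∪ {1})^n` satisfy `2 |B(n)| ≤ |B(n + C₀)|` for a constant `C₀` and all `n`, and
there is `ε > 0` such that `|B(n+1)| - |B(n)| ≥ ε |B(n)|` for all `n`. (For a metabelian group `G`
whose derived subgroup has infinite torsion-free rank take `A = C` the derived subgroup and
`H = G`.) -/
theorem result (G : Type) [Group G] [DecidableEq G] (C A H : Subgroup G) (hC : C.Normal)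
    (hH : H.FiniteIndex) (hHC : ⁅H, H⁆ ≤ C) (hA : A.Normal) (hAC : A ≤ C)
    (hAI : A ⊓ ⁅C, C⁆ = ⊥)
    (hrank : ∀ n : ℕ, ∃ φ : Multiplicative (Fin n → ℤ) →* G, Function.Injective φ ∧
      ∀ x, φ x ∈ A)
    (S : Finset G) (hS : Subgroup.closure (S : Set G) = ⊤) :
    (∃ C₀ : ℕ, ∀ n : ℕ,
      2 * ((S ∪ S⁻¹ ∪ {1}) ^ n).card ≤ ((S ∪ S⁻¹ ∪ {1}) ^ (n + C₀)).card) ∧
    ∃ ε : ℝ, 0 < ε ∧ ∀ n : ℕ,
      ε * (((S ∪ S⁻¹ ∪ {1}) ^ n).card : ℝ) ≤
        (((S ∪ S⁻¹ ∪ {1}) ^ (n + 1)).card : ℝ) - (((S ∪ S⁻¹ ∪ {1}) ^ n).card : ℝ) := by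
  classical
  set T : Finset G := S ∪ S⁻¹ ∪ {1} with hT
  have h1 : (1 : G) ∈ T := by simp [hT]
  have hgen : ∀ g : G, ∃ n : ℕ, g ∈ T ^ n := exists_mem_pow S hS
  set π : G →* G ⧸ C := QuotientGroup.mk' C with hπ
  have hπs : Function.Surjective π := QuotientGroup.mk'_surjective C
  have hker : π.ker = C := QuotientGroup.ker_mk' C
  have hGfg : Group.FG G := ⟨⟨S, hS⟩⟩
  have hΓfg : Group.FG (G ⧸ C) := Group.fg_of_surjective hπs
  have hfi : (H.map π).FiniteIndex := ⟨fun h => hH.index_ne_zero (by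
    have h2 := Subgroup.index_map_dvd H hπs
    rw [h] at h2
    exact zero_dvd_iff.mp h2)⟩
  let Q := H.map π
  have hQfg : Group.FG Q := by
    exact Subgroup.fg_of_index_ne_zero Q
  let instQ : CommGroup Q :=
    { (inferInstance : Group Q) with
      mul_comm := by
        rintro ⟨_, a, ha, rfl⟩ ⟨_, b, hb, rfl⟩
        apply Subtype.ext
        change π a * π b = π b * π a
        rw [← map_mul, ← map_mul, ← mul_inv_eq_one, ← map_inv, ← map_mul, ← MonoidHom.mem_ker,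
          hker]
        have h3 := hHC (Subgroup.commutator_mem_commutator ha hb)
        rw [commutatorElement_def] at h3
        rw [mul_inv_rev, ← mul_assoc]
        exact h3 }
  have hfin : Finite ((G ⧸ C) ⧸ Q) := Subgroup.finite_quotient_of_finiteIndex
  have : Fintype ((G ⧸ C) ⧸ Q) := Fintype.ofFinite _
  let P : Finset (G ⧸ C) := (Finset.univ : Finset ((G ⧸ C) ⧸ Q)).image fun z => (Quotient.out z)⁻¹
  have hP : ∀ γ : G ⧸ C, ∃ q : Q, ∃ p ∈ P, γ = Q.subtype q * p := by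
    intro γ
    have h2 : (Quotient.out (QuotientGroup.mk γ⁻¹ : (G ⧸ C) ⧸ Q) : G ⧸ C)⁻¹ * γ⁻¹ ∈ Q := by
      rw [← QuotientGroup.eq]
      exact Quotient.out_eq _
    refine ⟨⟨_, inv_mem h2⟩, _, Finset.mem_image.mpr ⟨QuotientGroup.mk γ⁻¹, Finset.mem_univ _,
      rfl⟩, ?_⟩
    change _ = (_ * γ⁻¹)⁻¹ * _
    group
  obtain ⟨C₀, hC₀⟩ := main (Q := Q) π hπs Q.subtype P hP A hA
    (fun a ha => by rw [← MonoidHom.mem_ker, hker]; exact hAC ha)
    (by rw [hker]; exact hAI) hrank T h1 hgen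
  exact ⟨⟨C₀, hC₀⟩, ratio_of_doubling T h1 C₀ hC₀⟩

end Pool.Agent.Results.MP_b59cbc_al.MetabelianInfiniteRank
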