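import Mathlib

set_option autoImplicit false

open Pointwise

namespace Pool.Agent.Results.MP_b59cbc_al.WreathSubgroups

section balls

variable {G : Type*} [Group G] [DecidableEq G]

/-- If the balls `T^n` satisfy `2 |T^n| ≤ |T^(n+C)|` for all `n`, the sphere/ball ratio is bounded
below. -/
lemma ratio_of_doubling (T : Finset G) (h1 : (1 : G) ∈ T) (C : ℕ)
    (hC : ∀ n : ℕ, 2 * (T ^ n).card ≤ (T ^ (n + C)).card) :
    ∃ ε : ℝ, 0 < ε ∧ ∀ n : ℕ,
      ε * ((T ^ n).card : ℝ) ≤ ((T ^ (n + 1)).card : ℝ) - ((T ^ n).card : ℝ) := by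
  have hne : ∀ n : ℕ, (T ^ n).Nonempty := fun n => ⟨1, Finset.one_mem_pow h1⟩
  obtain _ | c := C
  · have := hC 0
    simp at this
  have hsub : ∀ n c : ℕ, T ^ (n + c + 1) ⊆ T ^ n ∪ (T ^ (n + 1) \ T ^ n) * T ^ c := by
    intro n c
    induction c with
    | zero =>
      intro x hx
      simp only [add_zero, pow_zero, mul_one] at hx ⊢
      by_cases h : x ∈ T ^ n
      · exact Finset.mem_union_left _ h
      · exact Finset.mem_union_right _ (Finset.mem_sdiff.mpr ⟨hx, h⟩)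
    | succ c ih =>
      intro x hx
      have : x ∈ T ^ (n + c + 1) * T := by
        rw [← pow_succ]; exact hx
      obtain ⟨y, hy, t, ht, rfl⟩ := Finset.mem_mul.mp this
      rcases Finset.mem_union.mp (ih hy) with h | h
      · have h2 : y * t ∈ T ^ (n + 1) := by rw [pow_succ]; exact Finset.mul_mem_mul h ht
        by_cases h3 : y * t ∈ T ^ n
        · exact Finset.mem_union_left _ h3
        · refine Finset.mem_union_right _ ?_
          rw [← mul_one (y * t)]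
          exact Finset.mul_mem_mul (Finset.mem_sdiff.mpr ⟨h2, h3⟩) (Finset.one_mem_pow h1)
      · obtain ⟨a, ha, b, hb, rfl⟩ := Finset.mem_mul.mp h
        refine Finset.mem_union_right _ ?_
        rw [mul_assoc]
        refine Finset.mul_mem_mul ha ?_
        rw [pow_succ]
        exact Finset.mul_mem_mul hb ht
  refine ⟨1 / ((T ^ c).card : ℝ), ?_, ?_⟩
  · have : 0 < (T ^ c).card := (hne c).card_pos
    positivity
  · intro n
    have hc : 0 < ((T ^ c).card : ℝ) := by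
      have : 0 < (T ^ c).card := (hne c).card_pos
      exact_mod_cast this
    have k1 := Finset.card_le_card (hsub n c)
    have k2 := hC n
    have k3 : (T ^ n).card + (T ^ (n + 1) \ T ^ n).card = (T ^ (n + 1)).card := by
      rw [add_comm]
      exact Finset.card_sdiff_add_card_eq_card
        (Finset.pow_subset_pow_right h1 (Nat.le_succ n))
    have k4 : (T ^ n ∪ (T ^ (n + 1) \ T ^ n) * T ^ c).card ≤
        (T ^ n).card + (T ^ (n + 1) \ T ^ n).card * (T ^ c).card :=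
      (Finset.card_union_le _ _).trans (Nat.add_le_add_left Finset.card_mul_le _)
    have k5 : (T ^ n).card ≤ (T ^ (n + 1) \ T ^ n).card * (T ^ c).card := by
      have e : n + (c + 1) = n + c + 1 := by ring
      rw [e] at k2
      omega
    have k6 : ((T ^ n).card : ℝ) ≤ ((T ^ (n + 1) \ T ^ n).card : ℝ) * ((T ^ c).card : ℝ) := by
      exact_mod_cast k5
    have k7 : ((T ^ n).card : ℝ) + ((T ^ (n + 1) \ T ^ n).card : ℝ) =
        ((T ^ (n + 1)).card : ℝ) := by exact_mod_cast k3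
    rw [one_div, inv_mul_le_iff₀ hc]
    nlinarith

lemma pow_inv_mem (T : Finset G) (hT : ∀ t ∈ T, t⁻¹ ∈ T) (n : ℕ) {g : G} (hg : g ∈ T ^ n) :
    g⁻¹ ∈ T ^ n := by
  have h : T⁻¹ = T := by
    ext x
    rw [Finset.mem_inv']
    exact ⟨fun h => by simpa using hT _ h, fun h => hT _ h⟩
  have h2 : (T ^ n)⁻¹ = T ^ n := by rw [← inv_pow, h]
  rw [← h2, Finset.mem_inv', inv_inv]
  exact hg

lemma exists_mem_pow (S : Finset G) (hS : Subgroup.closure (S : Set G) = ⊤) (g : G) :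
    ∃ n : ℕ, g ∈ (S ∪ S⁻¹ ∪ {1}) ^ n := by
  have hg : g ∈ Subgroup.closure (S : Set G) := by rw [hS]; trivial
  induction hg using Subgroup.closure_induction with
  | mem x hx => exact ⟨1, by simp [Finset.mem_coe.mp hx]⟩
  | one => exact ⟨0, by simp⟩
  | mul x y _ _ hx hy =>
    obtain ⟨a, ha⟩ := hx
    obtain ⟨b, hb⟩ := hy
    exact ⟨a + b, by rw [pow_add]; exact Finset.mul_mem_mul ha hb⟩
  | inv x _ hx =>
    obtain ⟨a, ha⟩ := hx
    refine ⟨a, pow_inv_mem _ ?_ a ha⟩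
    intro t ht
    simp only [Finset.mem_union, Finset.mem_inv', Finset.mem_singleton] at ht ⊢
    rcases ht with (h | h) | h
    · left; right; simpa using h
    · left; left; exact h
    · right; simp [h]

lemma exists_finset_subset_pow (T : Finset G) (h1 : (1 : G) ∈ T)
    (F : Finset G) (hT : ∀ g ∈ F, ∃ n : ℕ, g ∈ T ^ n) : ∃ n : ℕ, F ⊆ T ^ n := by
  induction F using Finset.induction_on with
  | empty => exact ⟨0, by simp⟩
  | insert a s _ ih =>
    obtain ⟨n, hn⟩ := ih (fun g hg => hT g (Finset.mem_insert_of_mem hg))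
    obtain ⟨m, hm⟩ := hT a (Finset.mem_insert_self a s)
    refine ⟨max n m, ?_⟩
    intro x hx
    rcases Finset.mem_insert.mp hx with rfl | h
    · exact Finset.pow_subset_pow_right h1 (le_max_right n m) hm
    · exact Finset.pow_subset_pow_right h1 (le_max_left n m) (hn h)

end balls

section wreath

variable {A H G : Type*} [Group A] [Group H] [Group G]

/-- the projection to `H` -/
def pr (ρ : G →* A ≀ᵣ H) : G →* H := RegularWreathProduct.rightHom.comp ρ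

/-- the lamp function -/
def lam (ρ : G →* A ≀ᵣ H) (g : G) : H → A := (ρ g).left

variable (ρ : G →* A ≀ᵣ H)

lemma pr_apply (g : G) : pr ρ g = (ρ g).right := rfl

lemma lam_mul (g g' : G) (x : H) :
    lam ρ (g * g') x = lam ρ g x * lam ρ g' ((pr ρ g)⁻¹ * x) := by
  simp [lam, pr_apply]

lemma lam_one (x : H) : lam ρ 1 x = 1 := by
  simp [lam]

lemma lam_inv (g : G) (x : H) : lam ρ g⁻¹ x = (lam ρ g (pr ρ g * x))⁻¹ := by
  simp [lam, pr_apply]

lemma pr_conj (u z : G) (hz : pr ρ z = 1) : pr ρ (u * z * u⁻¹) = 1 := by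
  simp [hz]

lemma lam_conj (u z : G) (hz : pr ρ z = 1) (x : H) :
    lam ρ (u * z * u⁻¹) x = lam ρ u x * lam ρ z ((pr ρ u)⁻¹ * x) * (lam ρ u x)⁻¹ := by
  rw [lam_mul, lam_mul, lam_inv, map_mul, hz, mul_one, mul_inv_cancel_left]

lemma lam_conj_ne (u z : G) (hz : pr ρ z = 1) (x : H) :
    lam ρ (u * z * u⁻¹) x ≠ 1 ↔ lam ρ z ((pr ρ u)⁻¹ * x) ≠ 1 := by
  rw [lam_conj ρ u z hz, Ne, mul_inv_eq_one, mul_eq_left]

lemma ext_of {ρ : G →* A ≀ᵣ H} {g g' : G} (h1 : pr ρ g = pr ρ g')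
    (h2 : ∀ x, lam ρ g x = lam ρ g' x) : ρ g = ρ g' := by
  refine RegularWreathProduct.ext ?_ h1
  funext x
  exact h2 x

/-- An element `z` of the kernel `K` of the projection such that an element of `K` whose image
commutes with the image of `z` commutes with `z`. -/
def Good (z : G) : Prop :=
  pr ρ z = 1 ∧ ∀ k : G, pr ρ k = 1 → ρ (k * z * k⁻¹) = ρ z → k * z * k⁻¹ = z

lemma good_conj (u z : G) (hz : Good ρ z) : Good ρ (u * z * u⁻¹) := by
  refine ⟨pr_conj ρ u z hz.1, fun k hk h => ?_⟩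
  have h2 : (u⁻¹ * k * u) * z * (u⁻¹ * k * u)⁻¹ = z := by
    refine hz.2 _ (by simp [hk]) ?_
    have e : (u⁻¹ * k * u) * z * (u⁻¹ * k * u)⁻¹ = u⁻¹ * (k * (u * z * u⁻¹) * k⁻¹) * u := by
      group
    rw [e, map_mul, map_mul, h, ← map_mul, ← map_mul]
    congr 1
    group
  have e : k * (u * z * u⁻¹) * k⁻¹ = u * ((u⁻¹ * k * u) * z * (u⁻¹ * k * u)⁻¹) * u⁻¹ := by
    group
  rw [e, h2]

lemma commute_lam {k z : G} (hk : pr ρ k = 1) (hz : pr ρ z = 1) :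
    ρ (k * z * k⁻¹) = ρ z ↔ ∀ x, lam ρ k x * lam ρ z x = lam ρ z x * lam ρ k x := by
  constructor
  · intro h x
    have h2 : lam ρ (k * z * k⁻¹) x = lam ρ z x := by simp only [lam, h]
    rw [lam_conj ρ k z hz, hk, inv_one, one_mul] at h2
    rw [← h2]
    nth_rewrite 1 [h2]
    group
  · intro h
    refine ext_of (by rw [pr_conj ρ k z hz, hz]) (fun x => ?_)
    rw [lam_conj ρ k z hz, hk, inv_one, one_mul, h, mul_inv_cancel_right]

variable [DecidableEq G]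

/-- every point of the support of `g` is close to a prefix of any word representing `g` -/
lemma supp_near (T : Finset G) (D : Finset H) (hD : ∀ t ∈ T, ∀ x, lam ρ t x ≠ 1 → x ∈ D) :
    ∀ (n : ℕ) (g : G), g ∈ T ^ n → ∀ x, lam ρ g x ≠ 1 →
      ∃ i m : ℕ, i + m = n ∧ ∃ g1 ∈ T ^ i, ∃ g2 ∈ T ^ m, g = g1 * g2 ∧ (pr ρ g1)⁻¹ * x ∈ D := by
  intro n
  induction n with
  | zero =>
    intro g hg x hx
    have : g = 1 := by simpa using hg
    rw [this, lam_one] at hx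
    exact absurd rfl hx
  | succ n ih =>
    intro g hg x hx
    rw [pow_succ] at hg
    obtain ⟨g', hg', t, ht, rfl⟩ := Finset.mem_mul.mp hg
    by_cases h : lam ρ g' x = 1
    · rw [lam_mul, h, one_mul] at hx
      exact ⟨n, 1, rfl, g', hg', t, by simpa using ht, rfl, hD t ht _ hx⟩
    · obtain ⟨i, m, him, g1, hg1, g2, hg2, e, hd⟩ := ih g' hg' x h
      refine ⟨i, m + 1, by omega, g1, hg1, g2 * t, ?_, by rw [e, mul_assoc], hd⟩
      rw [pow_succ]
      exact Finset.mul_mem_mul hg2 ht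

variable [DecidableEq H]

omit [DecidableEq G] in
/-- products of translates of `γ` at the sites of `X` -/
lemma exists_zX (γ : G) (hgood : Good ρ γ) (F : Finset H) (hF : ∀ x, lam ρ γ x ≠ 1 ↔ x ∈ F)
    (X : Finset H) (hXr : ∀ s ∈ X, ∃ v : G, pr ρ v = s)
    (hX : ∀ s ∈ X, ∀ s' ∈ X, ∀ f ∈ F, ∀ f' ∈ F, s * f = s' * f' → s = s') :
    ∃ z : G, Good ρ z ∧ ∀ x, lam ρ z x ≠ 1 ↔ ∃ s ∈ X, ∃ f ∈ F, x = s * f := by
  have hγ : pr ρ γ = 1 := hgood.1
  induction X using Finset.induction_on with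
  | empty => exact ⟨1, ⟨map_one _, fun k _ _ => by group⟩, fun x => by simp [lam_one]⟩
  | insert a X ha ih =>
    obtain ⟨z, hz, hz2⟩ := ih (fun s hs => hXr s (Finset.mem_insert_of_mem hs))
      (fun s hs s' hs' => hX s (Finset.mem_insert_of_mem hs) s' (Finset.mem_insert_of_mem hs'))
    obtain ⟨v, hv⟩ := hXr a (Finset.mem_insert_self a X)
    have hw : ∀ x, lam ρ (v * γ * v⁻¹) x ≠ 1 ↔ ∃ f ∈ F, x = a * f := by
      intro x
      rw [lam_conj_ne ρ v γ hγ, hv, hF]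
      constructor
      · intro h; exact ⟨_, h, by group⟩
      · rintro ⟨f, hf, rfl⟩; simpa using hf
    have hz1 : pr ρ z = 1 := hz.1
    have hdisj : ∀ x, lam ρ z x ≠ 1 → lam ρ (v * γ * v⁻¹) x = 1 := by
      intro x h1
      obtain ⟨s, hs, f, hf, hx⟩ := (hz2 x).mp h1
      by_contra h
      obtain ⟨f', hf', hx'⟩ := (hw x).mp h
      have := hX s (Finset.mem_insert_of_mem hs) a (Finset.mem_insert_self a X) f hf f' hf'
        (by rw [← hx, ← hx'])
      exact ha (this ▸ hs)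
    have hwgood : Good ρ (v * γ * v⁻¹) := good_conj ρ v γ hgood
    have hzw : pr ρ (z * (v * γ * v⁻¹)) = 1 := by
      rw [map_mul, hz1, pr_conj ρ v γ hγ, one_mul]
    refine ⟨z * (v * γ * v⁻¹), ⟨hzw, fun k hk h => ?_⟩, fun x => ?_⟩
    · rw [commute_lam ρ hk hzw] at h
      have h' : ∀ x, lam ρ k x * (lam ρ z x * lam ρ (v * γ * v⁻¹) x) =
          (lam ρ z x * lam ρ (v * γ * v⁻¹) x) * lam ρ k x := by
        intro x
        have := h x
        rwa [lam_mul, hz1, inv_one, one_mul] at this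
      have c1 : k * z * k⁻¹ = z := by
        refine hz.2 k hk ((commute_lam ρ hk hz1).mpr fun x => ?_)
        by_cases h1 : lam ρ z x = 1
        · rw [h1]; simp
        · have := h' x
          rwa [hdisj x h1, mul_one] at this
      have c2 : k * (v * γ * v⁻¹) * k⁻¹ = v * γ * v⁻¹ := by
        refine hwgood.2 k hk ((commute_lam ρ hk hwgood.1).mpr fun x => ?_)
        by_cases h1 : lam ρ z x = 1
        · have := h' x
          rwa [h1, one_mul] at this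
        · rw [hdisj x h1]; simp
      calc k * (z * (v * γ * v⁻¹)) * k⁻¹ = (k * z * k⁻¹) * (k * (v * γ * v⁻¹) * k⁻¹) := by group
        _ = z * (v * γ * v⁻¹) := by rw [c1, c2]
    rw [lam_mul, hz1, inv_one, one_mul]
    by_cases h1 : lam ρ z x = 1
    · rw [h1, one_mul, hw]
      constructor
      · rintro ⟨f, hf, rfl⟩
        exact ⟨a, Finset.mem_insert_self a X, f, hf, rfl⟩
      · rintro ⟨s, hs, f, hf, rfl⟩
        rcases Finset.mem_insert.mp hs with rfl | hs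
        · exact ⟨f, hf, rfl⟩
        · exact absurd h1 ((hz2 _).mpr ⟨s, hs, f, hf, rfl⟩)
    · obtain ⟨s, hs, f, hf, hx⟩ := (hz2 x).mp h1
      rw [hdisj x h1, mul_one]
      exact ⟨fun _ => ⟨s, Finset.mem_insert_of_mem hs, f, hf, hx⟩, fun _ => h1⟩

omit [DecidableEq H] in
/-- insertion at the end of a word -/
lemma insert_end (T : Finset G) (W : Finset H) (x : H → G) (c : ℕ)
    (hc : ∀ e ∈ W, x e ∈ T ^ c) (k : ℕ) (g : G) (hg : g ∈ T ^ k) (p : H)
    (hp : p⁻¹ * pr ρ g ∈ W) :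
    ∃ e ∈ W, ∃ g' ∈ T ^ (k + c), (∃ w : G, pr ρ w = p * e ∧ g' = w * x e * w⁻¹ * g) ∧
      ∀ q, lam ρ g' q = lam ρ g q * lam ρ (x e) (e⁻¹ * (p⁻¹ * q)) := by
  refine ⟨_, hp, g * x (p⁻¹ * pr ρ g), ?_, ⟨g, by group, by group⟩, ?_⟩
  · rw [pow_add]
    exact Finset.mul_mem_mul hg (hc _ hp)
  · intro q
    rw [lam_mul]
    congr 2
    group

/-- insertion in the middle of a word at the last visit to a neighbourhood of `p` -/
lemma insert_mid (T : Finset G) (U D F Sg : Finset H)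
    (hU : ∀ t ∈ T, pr ρ t ∈ U)
    (hD : ∀ t ∈ T, ∀ x, lam ρ t x ≠ 1 → x ∈ D) (R R1 R2 : ℕ) (hR : R + R1 ≤ R2)
    (hU1 : (1 : H) ∈ U)
    (hR1 : ∀ e : H, (∃ v, pr ρ v = e) → (∃ f ∈ F, ∃ d ∈ D, e = f * d⁻¹) → e ∈ U ^ R1)
    (hSg : ∀ s ∈ Sg, s ∈ U ^ R ∧ ∃ v, pr ρ v = s)
    (x : H → G) (hx : ∀ e ∈ U ^ (R2 + 1), pr ρ (x e) = 1) (c : ℕ)
    (hc : ∀ e ∈ U ^ (R2 + 1), x e ∈ T ^ c)
    (hxs : ∀ e ∈ U ^ (R2 + 1), ∀ q, lam ρ (x e) (e⁻¹ * q) ≠ 1 → ∃ s ∈ Sg, ∃ f ∈ F, q = s * f)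
    (m : ℕ) : ∀ (i : ℕ) (g1 g2 : G), g1 ∈ T ^ i → g2 ∈ T ^ m → ∀ p : H, (∃ v, pr ρ v = p) →
      p⁻¹ * pr ρ g1 ∈ U ^ (R2 + 1) →
      ∃ e ∈ U ^ (R2 + 1), ∃ g' ∈ T ^ (i + m + c),
        (∃ w : G, pr ρ w = p * e ∧ g' = w * x e * w⁻¹ * (g1 * g2)) ∧
        ∀ q, lam ρ g' q = lam ρ (g1 * g2) q * lam ρ (x e) (e⁻¹ * (p⁻¹ * q)) := by
  induction m with
  | zero =>
    intro i g1 g2 hg1 hg2 p _ hp
    have : g2 = 1 := by simpa using hg2
    subst this
    rw [mul_one, add_zero]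
    exact insert_end ρ T _ x c hc i g1 hg1 p hp
  | succ m ih =>
    intro i g1 g2 hg1 hg2 p hpr hp
    rw [pow_succ] at hg2
    obtain ⟨g2', hg2', t, ht, rfl⟩ := Finset.mem_mul.mp hg2
    by_cases hcase : p⁻¹ * pr ρ (g1 * g2') ∈ U ^ R2
    · have h1 : p⁻¹ * pr ρ (g1 * (g2' * t)) ∈ U ^ (R2 + 1) := by
        rw [← mul_assoc g1, map_mul, ← mul_assoc, pow_succ]
        exact Finset.mul_mem_mul hcase (hU t ht)
      have h2 : g1 * (g2' * t) ∈ T ^ (i + (m + 1)) := by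
        rw [pow_add, pow_succ]
        exact Finset.mul_mem_mul hg1 (Finset.mul_mem_mul hg2' ht)
      exact insert_end ρ T _ x c hc _ _ h2 p h1
    · obtain ⟨e, he, g', hg', ⟨w0, hw0, hgw⟩, h2⟩ := ih i g1 g2' hg1 hg2' p hpr hp
      have h1 : pr ρ g' = pr ρ (g1 * g2') := by
        rw [hgw, map_mul, pr_conj ρ w0 _ (hx e he), one_mul]
      refine ⟨e, he, g' * t, ?_, ⟨w0, hw0, by rw [hgw]; group⟩, ?_⟩
      · have : i + (m + 1) + c = i + m + c + 1 := by ring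
        rw [this, pow_succ]
        exact Finset.mul_mem_mul hg' ht
      · intro q
        rw [← mul_assoc g1, lam_mul, lam_mul ρ (g1 * g2') t, h2, h1]
        by_cases h3 : lam ρ (x e) (e⁻¹ * (p⁻¹ * q)) = 1
        · rw [h3, mul_one, mul_one]
        · by_cases h4 : lam ρ t ((pr ρ (g1 * g2'))⁻¹ * q) = 1
          · rw [h4, mul_one, mul_one]
          · exfalso
            apply hcase
            obtain ⟨s, hs, f, hf, e1⟩ := hxs e he _ h3
            obtain ⟨hs1, v, hv⟩ := hSg s hs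
            obtain ⟨w, hw⟩ := hpr
            have e2 : p⁻¹ * pr ρ (g1 * g2') = s * (f * ((pr ρ (g1 * g2'))⁻¹ * q)⁻¹) := by
              rw [← mul_assoc, ← e1]; group
            have e3 : f * ((pr ρ (g1 * g2'))⁻¹ * q)⁻¹ ∈ U ^ R1 := by
              refine hR1 _ ⟨v⁻¹ * w⁻¹ * (g1 * g2'), ?_⟩ ⟨f, hf, _, hD t ht _ h4, rfl⟩
              rw [map_mul, map_mul, map_inv, map_inv, hv, hw, mul_assoc, e2]
              group
            rw [e2]
            exact Finset.pow_subset_pow_right hU1 hR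
              (by rw [pow_add]; exact Finset.mul_mem_mul hs1 e3)

lemma exists_separated (P : Finset H) (h1 : (1 : H) ∈ P) (F : Finset H) (hF : F.Nonempty) :
    ∃ Sg ⊆ P, (1 : H) ∈ Sg ∧
      (∀ s ∈ Sg, ∀ s' ∈ Sg, ∀ f ∈ F, ∀ f' ∈ F, s * f = s' * f' → s = s') ∧
      P.card ≤ Sg.card * (F * F⁻¹).card := by
  classical
  set cand := P.powerset.filter (fun X => (1 : H) ∈ X ∧
    ∀ s ∈ X, ∀ s' ∈ X, ∀ f ∈ F, ∀ f' ∈ F, s * f = s' * f' → s = s') with hcand
  have hne : cand.Nonempty := by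
    refine ⟨{1}, ?_⟩
    simp only [hcand, Finset.mem_filter, Finset.mem_powerset, Finset.singleton_subset_iff,
      Finset.mem_singleton]
    refine ⟨h1, trivial, ?_⟩
    intro s hs s' hs' _ _ _ _ _
    rw [hs, hs']
  obtain ⟨Sg, hSg, hmax⟩ := Finset.exists_max_image cand Finset.card hne
  simp only [hcand, Finset.mem_filter, Finset.mem_powerset] at hSg
  obtain ⟨hsub, h1S, hsep⟩ := hSg
  refine ⟨Sg, hsub, h1S, hsep, ?_⟩
  have hcov : P ⊆ Sg * (F * F⁻¹) := by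
    intro x hxP
    by_contra hx
    obtain ⟨f0, hf0⟩ := hF
    have hxS : x ∉ Sg := fun h => hx (Finset.mem_mul.mpr ⟨x, h, 1, Finset.mem_mul.mpr
      ⟨f0, hf0, f0⁻¹, Finset.inv_mem_inv hf0, mul_inv_cancel f0⟩, mul_one x⟩)
    have hkey : ∀ s ∈ Sg, ∀ f ∈ F, ∀ f' ∈ F, x * f ≠ s * f' := by
      intro s hs f hf f' hf' h
      apply hx
      refine Finset.mem_mul.mpr ⟨s, hs, f' * f⁻¹, Finset.mem_mul.mpr
        ⟨f', hf', f⁻¹, Finset.inv_mem_inv hf, rfl⟩, ?_⟩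
      rw [← mul_assoc, ← h, mul_inv_cancel_right]
    have hmem : insert x Sg ∈ cand := by
      simp only [hcand, Finset.mem_filter, Finset.mem_powerset]
      refine ⟨Finset.insert_subset hxP hsub, Finset.mem_insert_of_mem h1S, ?_⟩
      intro s hs s' hs' f hf f' hf' h
      rcases Finset.mem_insert.mp hs with k | k
      · rcases Finset.mem_insert.mp hs' with k' | k'
        · rw [k, k']
        · rw [k] at h
          exact absurd h (hkey s' k' f hf f' hf')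
      · rcases Finset.mem_insert.mp hs' with k' | k'
        · rw [k'] at h
          exact absurd h.symm (hkey s k f' hf' f hf)
        · exact hsep s k s' k' f hf f' hf' h
    have := hmax _ hmem
    rw [Finset.card_insert_of_notMem hxS] at this
    omega
  exact (Finset.card_le_card hcov).trans Finset.card_mul_le

lemma exp_beats (K : ℕ) : ∃ N0 : ℕ, ∀ N : ℕ, N0 ≤ N → K * N ^ 2 ≤ 2 ^ (N - 1) := by
  have h := tendsto_pow_const_div_const_pow_of_one_lt 2 (by norm_num : (1 : ℝ) < 2)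
  have h2 := (h.eventually_lt_const
    (by positivity : (0 : ℝ) < 1 / (2 * ((K : ℝ) + 1)))).exists_forall_of_atTop
  obtain ⟨N0, hN0⟩ := h2
  refine ⟨N0 + 1, fun N hN => ?_⟩
  have h3 := hN0 N (by omega)
  rw [div_lt_div_iff₀ (by positivity) (by positivity)] at h3
  obtain ⟨M, rfl⟩ : ∃ M, N = M + 1 := ⟨N - 1, by omega⟩
  have h4 : ((K * (M + 1) ^ 2 : ℕ) : ℝ) ≤ ((2 ^ M : ℕ) : ℝ) := by
    push_cast at h3 ⊢
    have e : (2 : ℝ) ^ (M + 1) = 2 * 2 ^ M := by ring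
    rw [e] at h3
    nlinarith [sq_nonneg ((M : ℝ) + 1)]
  have h5 : K * (M + 1) ^ 2 ≤ 2 ^ M := by exact_mod_cast h4
  simpa using h5

/-- The balls satisfy `2 |B(n)| ≤ |B(n+C)|`. -/
theorem doubling {ρ : G →* A ≀ᵣ H}
    (hfin : ∀ g : G, {x | lam ρ g x ≠ 1}.Finite)
    (γ : G) (hγ1 : ρ γ ≠ 1) (hγ : Good ρ γ) (hinf : (Set.range (pr ρ)).Infinite)
    (T : Finset G) (h1 : (1 : G) ∈ T) (hinv : ∀ t ∈ T, t⁻¹ ∈ T)
    (hgen : ∀ g : G, ∃ n : ℕ, g ∈ T ^ n) :
    ∃ C : ℕ, ∀ n : ℕ, 2 * (T ^ n).card ≤ (T ^ (n + C)).card := by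
  classical
  set U : Finset H := T.image (pr ρ) with hUdef
  have hUpow : ∀ n : ℕ, U ^ n = (T ^ n).image (pr ρ) := fun n => by
    rw [hUdef, Finset.image_pow]
  have hU : ∀ t ∈ T, pr ρ t ∈ U := fun t ht => Finset.mem_image_of_mem _ ht
  have hUp : ∀ n : ℕ, ∀ g ∈ T ^ n, pr ρ g ∈ U ^ n := fun n g hg => by
    rw [hUpow]; exact Finset.mem_image_of_mem _ hg
  have hUr : ∀ n : ℕ, ∀ x ∈ U ^ n, ∃ v, pr ρ v = x := fun n x hx => by
    rw [hUpow] at hx
    obtain ⟨v, _, hv⟩ := Finset.mem_image.mp hx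
    exact ⟨v, hv⟩
  have hU1 : (1 : H) ∈ U := by
    rw [← map_one (pr ρ)]; exact hU 1 h1
  have hUinv : ∀ t ∈ U, t⁻¹ ∈ U := by
    intro t ht
    obtain ⟨v, hv, rfl⟩ := Finset.mem_image.mp ht
    rw [← map_inv]
    exact hU _ (hinv v hv)
  have hUinvp : ∀ n : ℕ, ∀ x ∈ U ^ n, x⁻¹ ∈ U ^ n := fun n x hx => pow_inv_mem U hUinv n hx
  have hUmono : ∀ {m n : ℕ}, m ≤ n → U ^ m ⊆ U ^ n := fun h => Finset.pow_subset_pow_right hU1 h
  have hΓ : ∀ x, (∃ v, pr ρ v = x) → ∃ n : ℕ, x ∈ U ^ n := by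
    rintro x ⟨v, rfl⟩
    obtain ⟨n, hn⟩ := hgen v
    exact ⟨n, hUp n v hn⟩
  have hmulmem : ∀ {m n : ℕ} {x y : H}, x ∈ U ^ m → y ∈ U ^ n → x * y ∈ U ^ (m + n) :=
    fun hx hy => by rw [pow_add]; exact Finset.mul_mem_mul hx hy
  -- supports
  set D : Finset H := T.biUnion (fun t => (hfin t).toFinset) with hDdef
  have hD : ∀ t ∈ T, ∀ x, lam ρ t x ≠ 1 → x ∈ D := by
    intro t ht x hx
    exact Finset.mem_biUnion.mpr ⟨t, ht, (hfin t).mem_toFinset.mpr hx⟩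
  set F : Finset H := (hfin γ).toFinset with hFdef
  have hF : ∀ x, lam ρ γ x ≠ 1 ↔ x ∈ F := fun x => ((hfin γ).mem_toFinset (a := x)).symm
  have hFne : F.Nonempty := by
    by_contra h
    rw [Finset.not_nonempty_iff_eq_empty] at h
    apply hγ1
    rw [← map_one ρ]
    apply ext_of
    · rw [hγ.1, map_one]
    · intro x
      rw [lam_one]
      by_contra hx
      have := (hF x).mp hx
      rw [h] at this
      exact absurd this (Finset.notMem_empty x)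
  obtain ⟨f0, hf0⟩ := hFne
  have hFne : F.Nonempty := ⟨f0, hf0⟩
  obtain ⟨R1, hR1'⟩ := exists_finset_subset_pow U hU1
    ((F * D⁻¹).filter (fun e => ∃ v, pr ρ v = e)) (fun g hg => hΓ g (Finset.mem_filter.mp hg).2)
  have hR1 : ∀ e : H, (∃ v, pr ρ v = e) → (∃ f ∈ F, ∃ d ∈ D, e = f * d⁻¹) → e ∈ U ^ R1 := by
    rintro e hv ⟨f, hf, d, hd, rfl⟩
    exact hR1' (Finset.mem_filter.mpr ⟨Finset.mul_mem_mul hf (Finset.inv_mem_inv hd), hv⟩)
  obtain ⟨r, hr'⟩ := exists_finset_subset_pow U hU1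
    ((F * F⁻¹).filter (fun e => ∃ v, pr ρ v = e)) (fun g hg => hΓ g (Finset.mem_filter.mp hg).2)
  have hr : ∀ e : H, (∃ v, pr ρ v = e) → (∃ f ∈ F, ∃ d ∈ F, e = f * d⁻¹) → e ∈ U ^ r := by
    rintro e hv ⟨f, hf, d, hd, rfl⟩
    exact hr' (Finset.mem_filter.mpr ⟨Finset.mul_mem_mul hf (Finset.inv_mem_inv hd), hv⟩)
  -- choice of the radius
  set κ := (F * F⁻¹).card with hκ
  have hκpos : 0 < κ := Finset.card_pos.mpr (hFne.mul hFne.inv)
  obtain ⟨N0, hN0⟩ := exp_beats (2 * (U ^ r).card * (U ^ (r + R1 + 2)).card * κ ^ 2)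
  obtain ⟨R, hR⟩ : ∃ R : ℕ, κ * N0 ≤ (U ^ R).card := by
    obtain ⟨s, hs, hsc⟩ := hinf.exists_subset_card_eq (κ * N0)
    obtain ⟨R, hR⟩ := exists_finset_subset_pow U hU1 s (fun g hg => hΓ g (hs hg))
    exact ⟨R, hsc ▸ Finset.card_le_card hR⟩
  set R2 := R + r + 1 + R1 with hR2
  obtain ⟨Sg, hSgsub, h1Sg, hsep, hcard⟩ := exists_separated (U ^ R)
    (Finset.one_mem_pow hU1) F hFne
  have hSgN : N0 ≤ Sg.card := by
    have h : κ * N0 ≤ κ * Sg.card := by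
      calc κ * N0 ≤ (U ^ R).card := hR
        _ ≤ Sg.card * κ := hcard
        _ = κ * Sg.card := mul_comm _ _
    exact Nat.le_of_mul_le_mul_left h hκpos
  have hbig : 2 * ((U ^ (R + r)).card * (U ^ (R2 + 1)).card) ≤ 2 ^ (Sg.card - 1) := by
    refine le_trans ?_ (hN0 _ hSgN)
    have e1 : (U ^ (R + r)).card ≤ (Sg.card * κ) * (U ^ r).card := by
      rw [pow_add]
      exact Finset.card_mul_le.trans (Nat.mul_le_mul_right _ hcard)
    have e2 : (U ^ (R2 + 1)).card ≤ (Sg.card * κ) * (U ^ (r + R1 + 2)).card := by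
      have : R2 + 1 = R + (r + R1 + 2) := by omega
      rw [this, pow_add]
      exact Finset.card_mul_le.trans (Nat.mul_le_mul_right _ hcard)
    calc 2 * ((U ^ (R + r)).card * (U ^ (R2 + 1)).card)
        ≤ 2 * (((Sg.card * κ) * (U ^ r).card) * ((Sg.card * κ) * (U ^ (r + R1 + 2)).card)) :=
          Nat.mul_le_mul_left _ (Nat.mul_le_mul e1 e2)
      _ = _ := by ring
  -- the inserted elements
  have hSgr : ∀ s ∈ Sg, ∃ v, pr ρ v = s := fun s hs => hUr R s (hSgsub hs)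
  have hzex : ∀ X : Finset H, ∃ z : G, X ⊆ Sg → (Good ρ z ∧
      ∀ x, lam ρ z x ≠ 1 ↔ ∃ s ∈ X, ∃ f ∈ F, x = s * f) := by
    intro X
    by_cases hX : X ⊆ Sg
    · obtain ⟨z, hz⟩ := exists_zX ρ γ hγ F hF X (fun s hs => hSgr s (hX hs))
        (fun s hs s' hs' => hsep s (hX hs) s' (hX hs'))
      exact ⟨z, fun _ => hz⟩
    · exact ⟨1, fun h => absurd h hX⟩
  choose z hz using hzex
  have huex : ∀ e : H, ∃ v : G, e ∈ U ^ (R2 + 1) → pr ρ v = e⁻¹ := by
    intro e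
    by_cases he : e ∈ U ^ (R2 + 1)
    · obtain ⟨v, hv⟩ := hUr _ e he
      exact ⟨v⁻¹, fun _ => by rw [map_inv, hv]⟩
    · exact ⟨1, fun h => absurd h he⟩
  choose u hu using huex
  set x : Finset H → H → G := fun X e => u e * z X * (u e)⁻¹ with hxdef
  have hxg : ∀ X ⊆ Sg, ∀ e, Good ρ (x X e) := fun X hX e => good_conj ρ _ _ (hz X hX).1
  have hx1 : ∀ X ⊆ Sg, ∀ e, pr ρ (x X e) = 1 := fun X hX e => (hxg X hX e).1
  have hxs : ∀ X ⊆ Sg, ∀ e ∈ U ^ (R2 + 1), ∀ q, lam ρ (x X e) (e⁻¹ * q) ≠ 1 ↔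
      ∃ s ∈ X, ∃ f ∈ F, q = s * f := by
    intro X hX e he q
    have : (pr ρ (u e))⁻¹ * (e⁻¹ * q) = q := by rw [hu e he]; group
    rw [lam_conj_ne ρ _ _ (hz X hX).1.1, this]
    exact (hz X hX).2 q
  obtain ⟨c, hc'⟩ := exists_finset_subset_pow T h1
    ((Sg.powerset ×ˢ (U ^ (R2 + 1))).image (fun a => x a.1 a.2)) (fun g _ => hgen g)
  have hc : ∀ X ⊆ Sg, ∀ e ∈ U ^ (R2 + 1), x X e ∈ T ^ c := fun X hX e he =>
    hc' (Finset.mem_image.mpr ⟨(X, e), Finset.mem_product.mpr ⟨Finset.mem_powerset.mpr hX, he⟩, rfl⟩)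
  refine ⟨c, fun n => ?_⟩
  -- a far away point
  obtain ⟨p0, hp0r, hp0⟩ := hinf.exists_notMem_finset (U ^ (n + R1 + (R + r + 1)))
  have hp0r : ∃ v, pr ρ v = p0 := hp0r
  set act : G → H → Prop := fun g y => (∃ v, pr ρ v = y) ∧ (y = 1 ∨ ∃ f ∈ F, lam ρ g (y * f) ≠ 1)
    with hact
  have hact1 : ∀ g, act g 1 := fun g => ⟨⟨1, map_one _⟩, Or.inl rfl⟩
  have hmex : ∀ g : G, ∃ (m : ℕ) (ζ : H), act g ζ ∧ p0⁻¹ * ζ ∈ U ^ m ∧
      ∀ y, act g y → ∀ m', p0⁻¹ * y ∈ U ^ m' → m ≤ m' := by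
    intro g
    have hex : ∃ m : ℕ, ∃ ζ, act g ζ ∧ p0⁻¹ * ζ ∈ U ^ m := by
      obtain ⟨v, hv⟩ := hp0r
      obtain ⟨m, hm⟩ := hΓ (p0⁻¹ * 1) ⟨v⁻¹, by rw [map_inv, hv, mul_one]⟩
      exact ⟨m, 1, hact1 g, hm⟩
    obtain ⟨ζ, h2, h3⟩ := Nat.find_spec hex
    exact ⟨Nat.find hex, ζ, h2, h3, fun y hy m' hm' => Nat.find_min' hex ⟨y, hy, hm'⟩⟩
  choose m ζ hζact hζmem hmin using hmex
  -- active points are near the path
  have hnear : ∀ g ∈ T ^ n, ∀ y, act g y → ∃ i k : ℕ, i + k = n ∧ ∃ g1 ∈ T ^ i, ∃ g2 ∈ T ^ k,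
      g = g1 * g2 ∧ y⁻¹ * pr ρ g1 ∈ U ^ R1 := by
    rintro g hg y ⟨⟨v, hv⟩, hy⟩
    rcases hy with rfl | ⟨f, hf, hy⟩
    · refine ⟨0, n, by omega, 1, by simp, g, hg, by simp, ?_⟩
      rw [map_one, mul_one, inv_one]
      exact Finset.one_mem_pow hU1
    · obtain ⟨i, k, hik, g1, hg1, g2, hg2, e, hd⟩ := supp_near ρ T D hD n g hg _ hy
      refine ⟨i, k, hik, g1, hg1, g2, hg2, e, ?_⟩
      have e2 : y⁻¹ * pr ρ g1 = f * ((pr ρ g1)⁻¹ * (y * f))⁻¹ := by group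
      rw [e2]
      refine hR1 _ ⟨v⁻¹ * g1, ?_⟩ ⟨f, hf, _, hd, rfl⟩
      rw [map_mul, map_inv, hv, e2]
  have hmbig : ∀ g ∈ T ^ n, R + r + 1 < m g := by
    intro g hg
    by_contra hlt
    obtain ⟨i, k, hik, g1, hg1, g2, hg2, e, hd⟩ := hnear g hg (ζ g) (hζact g)
    apply hp0
    have e2 : p0 = pr ρ g1 * (((ζ g)⁻¹ * pr ρ g1)⁻¹ * (p0⁻¹ * ζ g)⁻¹) := by group
    rw [e2]
    have a1 := hUp i g1 hg1
    have a2 := hUinvp _ _ hd
    have a3 := hUinvp _ _ (hζmem g)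
    have a4 := hmulmem a1 (hmulmem a2 a3)
    exact hUmono (by omega) a4
  -- the insertion
  have hins : ∀ (g : G) (X : Finset H), ∃ (p e : H) (g' : G), g ∈ T ^ n → X ⊆ Sg →
      ((∃ v, pr ρ v = p) ∧ p0⁻¹ * p ∈ U ^ (m g - (R + r + 1)) ∧ e ∈ U ^ (R2 + 1) ∧
        g' ∈ T ^ (n + c) ∧ (∃ w : G, pr ρ w = p * e ∧ g' = w * x X e * w⁻¹ * g) ∧
        ∀ q, lam ρ g' q = lam ρ g q * lam ρ (x X e) (e⁻¹ * (p⁻¹ * q))) := by
    intro g X
    by_cases hg : g ∈ T ^ n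
    swap
    · exact ⟨1, 1, 1, fun h => absurd h hg⟩
    by_cases hX : X ⊆ Sg
    swap
    · exact ⟨1, 1, 1, fun _ h => absurd h hX⟩
    have hm := hmbig g hg
    have hζm := hζmem g
    have e1 : m g = (m g - (R + r + 1)) + (R + r + 1) := by omega
    rw [e1, pow_add] at hζm
    obtain ⟨τ, hτ, σ, hσ, hτσ⟩ := Finset.mem_mul.mp hζm
    obtain ⟨i, k, hik, g1, hg1, g2, hg2, e, hd⟩ := hnear g hg (ζ g) (hζact g)
    have hpr : ∃ v, pr ρ v = p0 * τ := by
      obtain ⟨v, hv⟩ := hp0r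
      obtain ⟨w, hw⟩ := hUr _ _ hτ
      exact ⟨v * w, by rw [map_mul, hv, hw]⟩
    have hp : (p0 * τ)⁻¹ * pr ρ g1 ∈ U ^ (R2 + 1) := by
      have e2 : (p0 * τ)⁻¹ * pr ρ g1 = σ * ((ζ g)⁻¹ * pr ρ g1) := by
        have : ζ g = p0 * (τ * σ) := by rw [hτσ]; group
        rw [this]; group
      rw [e2]
      exact hUmono (by omega) (hmulmem hσ hd)
    obtain ⟨e', he', g', hg', ⟨w0, hw0, h3⟩, h4⟩ := insert_mid ρ T U D F Sg hU hD R R1 R2 (by omega) hU1 hR1
      (fun s hs => ⟨hSgsub hs, hSgr s hs⟩) (x X) (fun e _ => hx1 X hX e) c (hc X hX)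
      (fun e he q hq => by
        obtain ⟨s, hs, f, hf, h⟩ := (hxs X hX e he q).mp hq
        exact ⟨s, hX hs, f, hf, h⟩) k i g1 g2 hg1 hg2 (p0 * τ) hpr hp
    refine ⟨p0 * τ, e', g', fun _ _ => ⟨hpr, ?_, he', ?_, ?_, ?_⟩⟩
    · rw [inv_mul_cancel_left]; exact hτ
    · rw [hik] at hg'; exact hg'
    · exact ⟨w0, hw0, by rw [h3, e]⟩
    · intro q; rw [h4, e]
  choose p e Φ hΦ using hins
  have hfree : ∀ g ∈ T ^ n, ∀ X ⊆ Sg, ∀ s ∈ Sg, ∀ f ∈ F, lam ρ g (p g X * (s * f)) = 1 := by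
    intro g hg X hX s hs f hf
    obtain ⟨⟨v, hv⟩, hp1, -⟩ := hΦ g X hg hX
    by_contra hne
    obtain ⟨w, hw⟩ := hSgr s hs
    have ha : act g (p g X * s) :=
      ⟨⟨v * w, by rw [map_mul, hv, hw]⟩, Or.inr ⟨f, hf, by rw [mul_assoc]; exact hne⟩⟩
    have hb : p0⁻¹ * (p g X * s) ∈ U ^ (m g - (R + r + 1) + R) := by
      rw [← mul_assoc]; exact hmulmem hp1 (hSgsub hs)
    have := hmin g _ ha _ hb
    have := hmbig g hg
    omega
  have hdet : ∀ g ∈ T ^ n, ∀ X ⊆ Sg, ∀ s ∈ Sg,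
      (lam ρ (Φ g X) (p g X * (s * f0)) ≠ 1 ↔ s ∈ X) := by
    intro g hg X hX s hs
    obtain ⟨hv, hp1, he, hg', hpr, hl⟩ := hΦ g X hg hX
    rw [hl, hfree g hg X hX s hs f0 hf0, one_mul, inv_mul_cancel_left, hxs X hX _ he]
    constructor
    · rintro ⟨s', hs', f, hf, h⟩
      rw [hsep s hs s' (hX hs') f0 hf0 f hf h]
      exact hs'
    · intro h
      exact ⟨s, h, f0, hf0, rfl⟩
  have hζp : ∀ g ∈ T ^ n, ∀ X ⊆ Sg, (1 : H) ∈ X →
      (ζ (Φ g X))⁻¹ * p g X ∈ U ^ (R + r) := by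
    intro g hg X hX h1X
    obtain ⟨⟨v, hv⟩, hp1, he, hg', hpr, hl⟩ := hΦ g X hg hX
    have hm := hmbig g hg
    have hpa : act (Φ g X) (p g X) := by
      refine ⟨⟨v, hv⟩, Or.inr ⟨f0, hf0, ?_⟩⟩
      have := (hdet g hg X hX 1 h1Sg).mpr h1X
      rwa [one_mul] at this
    have hlt : m (Φ g X) < m g := by
      have := hmin _ _ hpa _ hp1
      omega
    obtain ⟨⟨w, hw⟩, hζ⟩ := hζact (Φ g X)
    have hζm := hζmem (Φ g X)
    rcases hζ with hζ | ⟨f, hf, hζ⟩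
    · rw [hζ] at hζm
      have := hmin g 1 (hact1 g) _ hζm
      omega
    · rw [hl] at hζ
      by_cases h0 : lam ρ g (ζ (Φ g X) * f) = 1
      · rw [h0, one_mul] at hζ
        obtain ⟨s, hs, f', hf', hq⟩ := (hxs X hX _ he _).mp hζ
        have e1 : (p g X)⁻¹ * ζ (Φ g X) = s * (f' * f⁻¹) := by
          rw [← mul_assoc s, ← hq]; group
        obtain ⟨w', hw'⟩ := hSgr s (hX hs)
        have e2 : f' * f⁻¹ ∈ U ^ r := by
          refine hr _ ⟨w'⁻¹ * v⁻¹ * w, ?_⟩ ⟨f', hf', f, hf, rfl⟩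
          rw [map_mul, map_mul, map_inv, map_inv, hw', hv, hw, mul_assoc, e1]
          group
        have e3 : (p g X)⁻¹ * ζ (Φ g X) ∈ U ^ (R + r) := by
          rw [e1]; exact hmulmem (hSgsub (hX hs)) e2
        have := hUinvp _ _ e3
        rwa [mul_inv_rev, inv_inv] at this
      · have ha : act g (ζ (Φ g X)) := ⟨⟨w, hw⟩, Or.inr ⟨f, hf, h0⟩⟩
        have := hmin g _ ha _ hζm
        omega
  -- counting
  have hcount : ((T ^ n) ×ˢ (Sg.erase 1).powerset).card ≤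
      ((T ^ (n + c)) ×ˢ ((U ^ (R + r)) ×ˢ (U ^ (R2 + 1)))).card := by
    refine Finset.card_le_card_of_injOn
      (fun a => (Φ a.1 (insert 1 a.2), (ζ (Φ a.1 (insert 1 a.2)))⁻¹ * p a.1 (insert 1 a.2),
        e a.1 (insert 1 a.2))) ?_ ?_
    · rintro ⟨g, Y⟩ hgY
      simp only [Finset.coe_product, Set.mem_prod, Finset.mem_coe, Finset.mem_powerset] at hgY
      have hX : insert 1 Y ⊆ Sg :=
        Finset.insert_subset h1Sg (hgY.2.trans (Finset.erase_subset _ _))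
      obtain ⟨hv, hp1, he, hg', hpr, hl⟩ := hΦ g _ hgY.1 hX
      simp only [Finset.coe_product, Set.mem_prod, Finset.mem_coe]
      exact ⟨hg', hζp g hgY.1 _ hX (Finset.mem_insert_self _ _), he⟩
    · rintro ⟨g, Y⟩ hgY ⟨g', Y'⟩ hgY' heq
      simp only [Finset.coe_product, Set.mem_prod, Finset.mem_coe, Finset.mem_powerset] at hgY hgY'
      have hX : insert 1 Y ⊆ Sg :=
        Finset.insert_subset h1Sg (hgY.2.trans (Finset.erase_subset _ _))
      have hX' : insert 1 Y' ⊆ Sg :=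
        Finset.insert_subset h1Sg (hgY'.2.trans (Finset.erase_subset _ _))
      simp only [Prod.mk.injEq] at heq
      obtain ⟨q1, q2, q3⟩ := heq
      rw [q1] at q2
      have q2 := mul_left_cancel q2
      have hXX : insert 1 Y = insert 1 Y' := by
        ext s
        constructor
        · intro hs
          have := (hdet g hgY.1 _ hX s (hX hs)).mpr hs
          rw [q1, q2] at this
          exact (hdet g' hgY'.1 _ hX' s (hX hs)).mp this
        · intro hs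
          have := (hdet g' hgY'.1 _ hX' s (hX' hs)).mpr hs
          rw [← q1, ← q2] at this
          exact (hdet g hgY.1 _ hX s (hX' hs)).mp this
      obtain ⟨-, -, he, -, ⟨w, hw, hgw⟩, hl⟩ := hΦ g _ hgY.1 hX
      obtain ⟨-, -, he', -, ⟨w', hw', hgw'⟩, hl'⟩ := hΦ g' _ hgY'.1 hX'
      have hρg : ρ g = ρ g' := by
        apply ext_of
        · have k1 : pr ρ (Φ g (insert 1 Y)) = pr ρ g := by
            rw [hgw, map_mul, pr_conj ρ w _ (hx1 _ hX _), one_mul]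
          have k2 : pr ρ (Φ g' (insert 1 Y')) = pr ρ g' := by
            rw [hgw', map_mul, pr_conj ρ w' _ (hx1 _ hX' _), one_mul]
          rw [← k1, q1, k2]
        · intro y
          have k1 := hl y
          have k2 := hl' y
          rw [q1, k2, q2, q3, hXX] at k1
          exact (mul_right_cancel k1).symm
      have hgg : g = g' := by
        rw [q1, hgw', q3, hXX] at hgw
        rw [q2, q3, ← hw'] at hw
        set xx := x (insert 1 Y') (e g' (insert 1 Y')) with hxx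
        have hgx : Good ρ xx := hxg _ hX' _
        have hk : pr ρ (w'⁻¹ * w) = 1 := by rw [map_mul, map_inv, hw, inv_mul_cancel]
        have hkk : ρ ((w'⁻¹ * w) * xx * (w'⁻¹ * w)⁻¹) = ρ xx := by
          have e1 : (w'⁻¹ * w) * xx * (w'⁻¹ * w)⁻¹ = w'⁻¹ * ((w * xx * w⁻¹ * g) * g⁻¹) * w' := by
            group
          have e2 : xx = w'⁻¹ * ((w' * xx * w'⁻¹ * g') * g'⁻¹) * w' := by group
          rw [e1, ← hgw]
          conv_rhs => rw [e2]
          simp only [map_mul, map_inv, hρg]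
        have h3 := hgx.2 _ hk hkk
        have h4 : w * xx * w⁻¹ = w' * xx * w'⁻¹ := by
          calc w * xx * w⁻¹ = w' * ((w'⁻¹ * w) * xx * (w'⁻¹ * w)⁻¹) * w'⁻¹ := by group
            _ = _ := by rw [h3]
        rw [h4] at hgw
        exact (mul_left_cancel hgw).symm
      have hYY : Y = Y' := by
        have n1 : (1 : H) ∉ Y := fun h => Finset.notMem_erase 1 Sg (hgY.2 h)
        have n2 : (1 : H) ∉ Y' := fun h => Finset.notMem_erase 1 Sg (hgY'.2 h)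
        rw [← Finset.erase_insert n1, hXX, Finset.erase_insert n2]
      rw [hgg, hYY]
  rw [Finset.card_product, Finset.card_product, Finset.card_product, Finset.card_powerset,
    Finset.card_erase_of_mem h1Sg] at hcount
  have hM : 0 < (U ^ (R + r)).card * (U ^ (R2 + 1)).card :=
    Nat.mul_pos (Finset.card_pos.mpr ⟨1, Finset.one_mem_pow hU1⟩)
      (Finset.card_pos.mpr ⟨1, Finset.one_mem_pow hU1⟩)
  refine Nat.le_of_mul_le_mul_right ?_ hM
  calc 2 * (T ^ n).card * ((U ^ (R + r)).card * (U ^ (R2 + 1)).card)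
      = (T ^ n).card * (2 * ((U ^ (R + r)).card * (U ^ (R2 + 1)).card)) := by ring
    _ ≤ (T ^ n).card * 2 ^ (Sg.card - 1) := Nat.mul_le_mul_left _ hbig
    _ ≤ _ := hcount

end wreath

/-- Let `G` be a finitely generated group and `ρ` a homomorphism from `G` to a restricted regular
wreath product `A wr H` (every `ρ g` has a finitely supported lamp function) whose image in `H` is
infinite. Let `K` be the kernel of `G → H` and suppose that some `γ` in `K` has `ρ γ ≠ 1` and is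
such that any `k` in `K` whose image commutes with `ρ γ` commutes with `γ`. (This last condition
holds for every `γ` in `K` if `ρ` is injective, and it holds for every `γ` in the centre of `K`.)
Then for every finite generating set `S` of `G` the balls `B(n) = (S ∪ S⁻¹ ∪ {1})^n` satisfy
`2 |B(n)| ≤ |B(n+C)|` for a constant `C` and all `n`, and there is `ε > 0` such that
`|B(n+1)| - |B(n)| ≥ ε |B(n)|` for all `n`. -/
theorem result {A H G : Type} [Group A] [Group H] [Group G] [DecidableEq G]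
    (ρ : G →* A ≀ᵣ H)
    (hfin : ∀ g : G, {x : H | (ρ g).left x ≠ 1}.Finite)
    (hinf : (Set.range fun g : G => (ρ g).right).Infinite)
    (hγ : ∃ γ : G, (ρ γ).right = 1 ∧ ρ γ ≠ 1 ∧
      ∀ k : G, (ρ k).right = 1 → Commute (ρ k) (ρ γ) → Commute k γ)
    (S : Finset G) (hS : Subgroup.closure (S : Set G) = ⊤) :
    (∃ C : ℕ, ∀ n : ℕ,
      2 * ((S ∪ S⁻¹ ∪ {1}) ^ n).card ≤ ((S ∪ S⁻¹ ∪ {1}) ^ (n + C)).card) ∧
    ∃ ε : ℝ, 0 < ε ∧ ∀ n : ℕ,
      ε * (((S ∪ S⁻¹ ∪ {1}) ^ n).card : ℝ) ≤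
        (((S ∪ S⁻¹ ∪ {1}) ^ (n + 1)).card : ℝ) - (((S ∪ S⁻¹ ∪ {1}) ^ n).card : ℝ) := by
  classical
  obtain ⟨γ, hγ1, hγ2, hγ3⟩ := hγ
  have h1 : (1 : G) ∈ S ∪ S⁻¹ ∪ {1} := by simp
  have hinv : ∀ t ∈ S ∪ S⁻¹ ∪ {1}, t⁻¹ ∈ S ∪ S⁻¹ ∪ {1} := by
    intro t ht
    simp only [Finset.mem_union, Finset.mem_inv', Finset.mem_singleton] at ht ⊢
    rcases ht with (h | h) | h
    · left; right; simpa using h
    · left; left; exact h
    · right; simp [h]
  have hgood : Good ρ γ := by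
    refine ⟨hγ1, fun k hk h => ?_⟩
    have h2 : Commute (ρ k) (ρ γ) := by
      rw [map_mul, map_mul, map_inv, mul_inv_eq_iff_eq_mul] at h
      exact h
    have h3 : k * γ = γ * k := hγ3 k hk h2
    rw [h3, mul_inv_cancel_right]
  obtain ⟨C, hC⟩ := doubling hfin γ hγ2 hgood hinf (S ∪ S⁻¹ ∪ {1}) h1 hinv
    (exists_mem_pow S hS)
  exact ⟨⟨C, hC⟩, ratio_of_doubling _ h1 C hC⟩

end Pool.Agent.Results.MP_b59cbc_al.WreathSubgroups
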